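import Pool.Agent.W328.AM.Final

/-!
Solvable automorphic loops of order `2 ^ k`, `k ≥ 1`, have a nontrivial middle nucleus, and the
commutator subgroup of their multiplication group is a 2-group.
-/

set_option autoImplicit false

namespace Pool.Agent.Results.MP_20a840_al.SolvablePrimeTwo

/-- A loop with underlying set `Q`, product `op` and neutral element `e`. -/
structure Loop (Q : Type) where
  op : Q → Q → Q
  e : Q
  one_op : ∀ x, op e x = x
  op_one : ∀ x, op x e = x
  bijL : ∀ x, Function.Bijective (fun y => op x y)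
  bijR : ∀ x, Function.Bijective (fun y => op y x)

namespace Loop

variable {Q : Type} (A : Loop Q)

/-- The left translation by `x`. -/
noncomputable def L (x : Q) : Equiv.Perm Q := Equiv.ofBijective _ (A.bijL x)

/-- The right translation by `x`. -/
noncomputable def R (x : Q) : Equiv.Perm Q := Equiv.ofBijective _ (A.bijR x)

/-- The multiplication group, generated by all translations. -/
def Mlt : Subgroup (Equiv.Perm Q) := Subgroup.closure (Set.range A.L ∪ Set.range A.R)

/-- Every element of the multiplication group that fixes the neutral element is an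
automorphism. -/
def Automorphic : Prop :=
  ∀ g ∈ A.Mlt, g A.e = A.e → ∀ x y, g (A.op x y) = A.op (g x) (g y)

/-- The middle nucleus. -/
def middleNucleus : Set Q := {a | ∀ x y, A.op (A.op x a) y = A.op x (A.op a y)}

end Loop

/-- Solvable loops: the one-element loops, and the loops having a surjective homomorphism
onto a solvable loop whose kernel is an abelian group. -/
inductive Solvable : (Q : Type) → Loop Q → Prop
  | triv (Q : Type) (A : Loop Q) (h : ∀ x, x = A.e) : Solvable Q A
  | step (Q Q' : Type) (A : Loop Q) (B : Loop Q') (f : Q → Q')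
      (hom : ∀ x y, f (A.op x y) = B.op (f x) (f y)) (surj : Function.Surjective f)
      (comm : ∀ m n, f m = B.e → f n = B.e → A.op m n = A.op n m)
      (assoc : ∀ m n p, f m = B.e → f n = B.e → f p = B.e →
        A.op (A.op m n) p = A.op m (A.op n p))
      (h : Solvable Q' B) : Solvable Q A

open Pool.Agent.H687R3.AL Pool.Agent.W328.AM

theorem key {Q : Type} (A : Loop Q) (hA : A.Automorphic) (P H : Equiv.Perm Q) (hP : P ∈ A.Mlt)
    (hH : H ∈ A.Mlt) (he : P A.e = H A.e) {z₁ z₂ w₁ w₂ : Q} (h1 : P w₁ = H z₁)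
    (h2 : P w₂ = H z₂) : P (A.op w₁ w₂) = H (A.op z₁ z₂) := by
  have e0 : (P⁻¹ * H) A.e = A.e := by rw [Equiv.Perm.mul_apply, ← he]; simp
  have e1 : (P⁻¹ * H) z₁ = w₁ := by rw [Equiv.Perm.mul_apply, ← h1]; simp
  have e2 : (P⁻¹ * H) z₂ = w₂ := by rw [Equiv.Perm.mul_apply, ← h2]; simp
  have h3 := hA _ (A.Mlt.mul_mem (A.Mlt.inv_mem hP) hH) e0 z₁ z₂
  rw [e1, e2] at h3
  rw [← h3]; simp

theorem L_mem' {Q : Type} (A : Loop Q) (x : Q) : A.L x ∈ A.Mlt :=
  Subgroup.subset_closure (Or.inl ⟨x, rfl⟩)

theorem R_mem' {Q : Type} (A : Loop Q) (x : Q) : A.R x ∈ A.Mlt :=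
  Subgroup.subset_closure (Or.inr ⟨x, rfl⟩)

def toAL {Q : Type} (A : Loop Q) (hA : A.Automorphic) : AL Q where
  op := A.op
  e := A.e
  idl := A.one_op
  idr := A.op_one
  bijL := A.bijL
  bijR := A.bijR
  autL := by
    intro x y z₁ z₂ w₁ w₂ h1 h2
    refine key A hA (A.L (A.op y x)) (A.L y * A.L x) (L_mem' A _)
      (A.Mlt.mul_mem (L_mem' A _) (L_mem' A _)) ?_ h1 h2
    change A.op (A.op y x) A.e = A.op y (A.op x A.e)
    rw [A.op_one, A.op_one]
  autR := by
    intro x y z₁ z₂ w₁ w₂ h1 h2
    refine key A hA (A.R (A.op x y)) (A.R y * A.R x) (R_mem' A _)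
      (A.Mlt.mul_mem (R_mem' A _) (R_mem' A _)) ?_ h1 h2
    change A.op A.e (A.op x y) = A.op (A.op A.e x) y
    rw [A.one_op, A.one_op]
  autT := by
    intro x z₁ z₂ w₁ w₂ h1 h2
    refine key A hA (A.R x) (A.L x) (R_mem' A _) (L_mem' A _) ?_ h1 h2
    change A.op A.e x = A.op x A.e
    rw [A.one_op, A.op_one]

theorem solv_aux {Q : Type} {A : Loop Q} (h : Solvable Q A) :
    ∀ A' : AL Q, A'.op = A.op → A'.e = A.e → Finite Q → (∃ k, Nat.card Q = 2 ^ k) → SC A' := by
  induction h with
  | triv Q A h =>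
    intro A' _ _ _ _ c _
    refine ⟨0, Subtype.ext (Equiv.ext fun x => ?_)⟩
    rw [h x, h (((c ^ 2 ^ 0 : GG A') : Equiv.Perm Q) A.e)]
    rfl
  | step Q Q' A B f hom surj comm assoc h ih =>
    intro A' hop he hfin hcard
    have hf : ∀ x y, f (A'.op x y) = B.op (f x) (f y) := by rw [hop]; exact hom
    obtain ⟨B', hB'1, hB'2⟩ : ∃ B' : AL Q', B'.op = B.op ∧ B'.e = B.e :=
      ⟨H526R3.ML.img A' B.op B.e f surj hf B.one_op B.op_one B.bijL B.bijR, rfl, rfl⟩
    have hf' : ∀ x y, f (A'.op x y) = B'.op (f x) (f y) := by rw [hB'1]; exact hf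
    have hcomm' : ∀ m n, f m = B'.e → f n = B'.e → A'.op m n = A'.op n m := by
      intro m n hm hn
      rw [hB'2] at hm hn
      rw [hop]
      exact comm m n hm hn
    have hass' : ∀ m n p, f m = B'.e → f n = B'.e → f p = B'.e →
        A'.op (A'.op m n) p = A'.op m (A'.op n p) := by
      intro m n p hm hn hp
      rw [hB'2] at hm hn hp
      rw [hop]
      exact assoc m n p hm hn hp
    have hcardB : ∃ k, Nat.card Q' = 2 ^ k := by
      have hfib : ∀ q : Q', Nat.card {y // f y = q} = Nat.card {y // f y = B'.e} := by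
        intro q
        obtain ⟨x, rfl⟩ := surj q
        refine (Nat.card_congr ((A'.L x).subtypeEquiv ?_)).symm
        intro y
        change f y = B'.e ↔ f (A'.op x y) = f x
        rw [hf']
        constructor
        · intro h; rw [h, B'.idr]
        · intro h
          apply (B'.bijL (f x)).1
          change B'.op _ _ = B'.op _ _
          rw [h, B'.idr]
      have hfinQ' : Finite Q' := Finite.of_surjective f surj
      have := Fintype.ofFinite Q'
      have hmul : Nat.card Q = Nat.card Q' * Nat.card {y // f y = B'.e} := by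
        rw [← Nat.card_congr (Equiv.sigmaFiberEquiv f), Nat.card_sigma]
        simp only [hfib]
        rw [Finset.sum_const, Finset.card_univ, ← Nat.card_eq_fintype_card, smul_eq_mul]
      obtain ⟨k, hk⟩ := hcard
      obtain ⟨i, _, hi⟩ := (Nat.dvd_prime_pow Nat.prime_two).1
        (⟨_, by rw [← hk, hmul]⟩ : Nat.card Q' ∣ 2 ^ k)
      exact ⟨i, hi⟩
    have hSB := ih B' hB'1 hB'2 (Finite.of_surjective f surj) hcardB
    exact ext_all B' hSB _ Q A' f hcard hf' surj hcomm' hass' rfl

/-- Let `k ≥ 1` and let `Q` be a solvable automorphic loop of order `2 ^ k`. Then the middle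
nucleus of `Q` contains an element other than the neutral element, and every element of the
commutator subgroup of the multiplication group of `Q` has 2-power order. -/
theorem result (k : ℕ) (hk : 1 ≤ k) (Q : Type) (A : Loop Q) (hA : A.Automorphic)
    (hcard : Nat.card Q = 2 ^ k) (hsol : Solvable Q A) :
    (∃ a ∈ A.middleNucleus, a ≠ A.e) ∧ A.middleNucleus ≠ {A.e} ∧
      ∀ g ∈ ⁅A.Mlt, A.Mlt⁆, ∃ n : ℕ, g ^ 2 ^ n = 1 := by
  have hfin : Finite Q := Nat.finite_of_card_ne_zero (by rw [hcard]; positivity)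
  set A' := toAL A hA with hA'
  have hSC : SC A' := solv_aux hsol A' rfl rfl hfin ⟨k, hcard⟩
  have hne : ∃ x : Q, x ≠ A'.e := by
    by_contra hcon
    push Not at hcon
    have h1 : Nat.card Q = 1 := Nat.card_eq_one_iff_unique.2
      ⟨⟨fun a b => (hcon a).trans (hcon b).symm⟩, ⟨A.e⟩⟩
    rw [hcard] at h1
    have h2 := Nat.one_lt_two_pow (n := k) (by omega)
    omega
  obtain ⟨a, hae, ha⟩ := exists_mid (A := A') ⟨k, hcard⟩ hne hSC
  have hmem : a ∈ A.middleNucleus := ha
  refine ⟨⟨a, hmem, hae⟩, ?_, ?_⟩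
  · intro h
    rw [h] at hmem
    exact hae hmem
  · intro g hg
    have hle : A.Mlt ≤ GG A' := by
      rw [Loop.Mlt, Subgroup.closure_le]
      rintro _ (⟨x, rfl⟩ | ⟨x, rfl⟩)
      · exact L_mem A' x
      · exact R_mem A' x
    have h1 : ⁅A.Mlt, A.Mlt⁆ ≤ (commutator (GG A')).map (GG A').subtype := by
      rw [commutator_def, Subgroup.map_commutator, ← MonoidHom.range_eq_map, Subgroup.range_subtype]
      exact Subgroup.commutator_mono hle hle
    obtain ⟨c, hc, rfl⟩ := h1 hg
    obtain ⟨n, hn⟩ := hSC c hc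
    exact ⟨n, congrArg Subtype.val hn⟩

end Pool.Agent.Results.MP_20a840_al.SolvablePrimeTwo
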